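import Pool.Agent.Helper76.DE.StL

/-!
# Project PRD, module Cst (helper37): near constancy, iteration with real exponents
-/

set_option autoImplicit false

noncomputable section

namespace Pool.Agent.Helper37.PRD

open Pool.Agent.Helper76.ND Pool.Agent.Helper76.DE Finset

theorem cst_II (hPo : StPo) (y : ℝ) (f : ℕ → ℝ) (hy : 0 < y) (hf : ∀ N, 0 ≤ f N ∧ f N ≤ 1) :
    0 ≤ II y f ∧ II y f ≤ 1 / 2 := by
  have hg := hPo.2.1
  have h1 : ∀ N : ℕ, 0 ≤ mu y N ∧ mu y N ≤ 1 / (4 * y) := by
    intro N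
    obtain ⟨a, b, -, -⟩ := hg (N / y)
    refine ⟨div_nonneg a hy.le, ?_⟩
    unfold mu
    rw [div_le_div_iff₀ hy (by positivity)]
    nlinarith
  constructor
  · unfold II
    exact Finset.sum_nonneg (fun N _ => mul_nonneg (h1 N).1 (hf N).1)
  · unfold II
    calc ∑ N ∈ Icc 1 ⌊2 * y⌋₊, mu y N * f N ≤ ∑ N ∈ Icc 1 ⌊2 * y⌋₊, 1 / (4 * y) := by
          apply Finset.sum_le_sum
          intro N _
          calc mu y N * f N ≤ mu y N * 1 := mul_le_mul_of_nonneg_left (hf N).2 (h1 N).1
            _ ≤ 1 / (4 * y) := by rw [mul_one]; exact (h1 N).2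
      _ = (⌊2 * y⌋₊ : ℝ) * (1 / (4 * y)) := by simp
      _ ≤ (2 * y) * (1 / (4 * y)) := by
          apply mul_le_mul_of_nonneg_right (Nat.floor_le (by positivity)) (by positivity)
      _ = 1 / 2 := by field_simp; norm_num

theorem cst_step (hPo : StPo) (hEqz : StEqz) : ∃ C1 : ℝ, 0 < C1 ∧
    ∀ (B : ℕ) (s s' : ℝ) (f : ℕ → ℝ), 1 ≤ B → 0 < s → s ≤ s' → s' ≤ 106 / 105 * s →
      (∀ N, 0 ≤ f N ∧ f N ≤ 1) → Inv B f →
      |II (B * Real.exp s) f - II (B * Real.exp s') f| ≤ C1 * s ^ (-(1 / 1600) : ℝ) := by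
  obtain ⟨x0, C, hx0, hC, H⟩ := hEqz
  have hlx0 : 0 < Real.log x0 := Real.log_pos (by linarith)
  refine ⟨(2 * Real.log x0) ^ (1 / 1600 : ℝ) + 2 * C, by positivity, ?_⟩
  intro B s s' f hB hs hss hs' hf hI
  have hB1 : (1 : ℝ) ≤ B := by exact_mod_cast hB
  have hB0 : (0 : ℝ) < B := by linarith
  have hsa : 0 < s ^ (-(1 / 1600) : ℝ) := Real.rpow_pos_of_pos hs _
  have hlB : 0 ≤ Real.log B := Real.log_nonneg hB1
  by_cases h1 : s < 2 * Real.log x0
  · have b1 := cst_II hPo (B * Real.exp s) f (by positivity) hf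
    have b2 := cst_II hPo (B * Real.exp s') f (by positivity) hf
    have b3 : |II (B * Real.exp s) f - II (B * Real.exp s') f| ≤ 1 := by
      rw [abs_le]; constructor <;> linarith [b1.1, b1.2, b2.1, b2.2]
    have b4 : s ^ (1 / 1600 : ℝ) ≤ (2 * Real.log x0) ^ (1 / 1600 : ℝ) :=
      Real.rpow_le_rpow hs.le h1.le (by norm_num)
    have b5 : s ^ (1 / 1600 : ℝ) * s ^ (-(1 / 1600) : ℝ) = 1 := by
      rw [← Real.rpow_add hs]; norm_num
    calc |II (B * Real.exp s) f - II (B * Real.exp s') f| ≤ 1 := b3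
      _ = s ^ (1 / 1600 : ℝ) * s ^ (-(1 / 1600) : ℝ) := b5.symm
      _ ≤ ((2 * Real.log x0) ^ (1 / 1600 : ℝ) + 2 * C) * s ^ (-(1 / 1600) : ℝ) :=
          mul_le_mul_of_nonneg_right (by linarith) hsa.le
  · push Not at h1
    by_cases h2 : 20 * s ≤ Real.log B
    · -- the base point `z = B / x`
      set x : ℝ := Real.exp (20 * s) with hx
      have hx' : 0 < x := Real.exp_pos _
      have hlx : Real.log x = 20 * s := Real.log_exp _
      have hxx : x0 ≤ x := by
        rw [← Real.log_le_log_iff (by linarith) hx', hlx]; linarith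
      have hxB : x ≤ B := by
        rw [← Real.log_le_log_iff hx' hB0, hlx]; exact h2
      have e1 : ∀ u : ℝ, B * Real.exp u / (B / x) = Real.exp (u + 20 * s) := by
        intro u
        rw [Real.exp_add, ← hx]
        field_simp
      have e2 : ∀ c : ℝ, x ^ c = Real.exp (20 * s * c) := by
        intro c; rw [hx, ← Real.exp_mul]
      have r1 : YZ (B / x) x (B * Real.exp s) := by
        refine ⟨?_, ?_, ?_⟩
        · rw [le_div_iff₀ hx']; linarith
        · rw [e1, e2]; apply Real.exp_le_exp.mpr; linarith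
        · rw [e1, e2]; apply Real.exp_le_exp.mpr; linarith
      have r2 : YZ (B / x) x (B * Real.exp s') := by
        refine ⟨?_, ?_, ?_⟩
        · rw [le_div_iff₀ hx']; linarith
        · rw [e1, e2]; apply Real.exp_le_exp.mpr; linarith
        · rw [e1, e2]; apply Real.exp_le_exp.mpr; linarith
      have r3 := H (B / x) x _ _ B f hxx r1 r2 hf (by rw [div_mul_cancel₀ _ hx'.ne']) hI
      rw [hlx] at r3
      have r4 : (20 * s) ^ (-(1 / 1600) : ℝ) ≤ s ^ (-(1 / 1600) : ℝ) :=
        Real.rpow_le_rpow_of_nonpos hs (by linarith) (by norm_num)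
      have hp : 0 < (2 * Real.log x0) ^ (1 / 1600 : ℝ) := by positivity
      calc |II (B * Real.exp s) f - II (B * Real.exp s') f| ≤ C * (20 * s) ^ (-(1 / 1600) : ℝ) := r3
        _ ≤ C * s ^ (-(1 / 1600) : ℝ) := mul_le_mul_of_nonneg_left r4 hC.le
        _ ≤ ((2 * Real.log x0) ^ (1 / 1600 : ℝ) + 2 * C) * s ^ (-(1 / 1600) : ℝ) :=
          mul_le_mul_of_nonneg_right (by linarith) hsa.le
    · push Not at h2
      set x : ℝ := Real.exp ((Real.log B + s) * (100 / 105)) with hx
      have hx' : 0 < x := Real.exp_pos _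
      have hlx : Real.log x = (Real.log B + s) * (100 / 105) := Real.log_exp _
      have hxx : x0 ≤ x := by
        rw [← Real.log_le_log_iff (by linarith) hx', hlx]; linarith
      have hxB : (B : ℝ) ≤ x := by
        rw [← Real.log_le_log_iff hB0 hx', hlx]; linarith
      have e1 : ∀ u : ℝ, B * Real.exp u / 1 = Real.exp (u + Real.log B) := by
        intro u
        rw [Real.exp_add, Real.exp_log hB0, div_one, mul_comm]
      have e2 : ∀ c : ℝ, x ^ c = Real.exp ((Real.log B + s) * (100 / 105) * c) := by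
        intro c; rw [hx, ← Real.exp_mul]
      have r1 : YZ 1 x (B * Real.exp s) := by
        refine ⟨le_rfl, ?_, ?_⟩
        · rw [e1, e2]; apply Real.exp_le_exp.mpr; linarith
        · rw [e1, e2]; apply Real.exp_le_exp.mpr; linarith
      have r2 : YZ 1 x (B * Real.exp s') := by
        refine ⟨le_rfl, ?_, ?_⟩
        · rw [e1, e2]; apply Real.exp_le_exp.mpr; linarith
        · rw [e1, e2]; apply Real.exp_le_exp.mpr; linarith
      have r3 := H 1 x _ _ B f hxx r1 r2 hf (by rw [one_mul]; exact hxB) hI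
      rw [hlx] at r3
      have r4 : ((Real.log B + s) * (100 / 105)) ^ (-(1 / 1600) : ℝ) ≤
          (s * (1 / 2)) ^ (-(1 / 1600) : ℝ) :=
        Real.rpow_le_rpow_of_nonpos (by linarith) (by linarith) (by norm_num)
      have r5 : (s * (1 / 2)) ^ (-(1 / 1600) : ℝ) ≤ 2 * s ^ (-(1 / 1600) : ℝ) := by
        rw [Real.mul_rpow hs.le (by norm_num), mul_comm]
        apply mul_le_mul_of_nonneg_right _ hsa.le
        rw [one_div, Real.inv_rpow (by norm_num), Real.rpow_neg (by norm_num), inv_inv]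
        calc (2 : ℝ) ^ (1 / 1600 : ℝ) ≤ 2 ^ (1 : ℝ) :=
              Real.rpow_le_rpow_of_exponent_le (by norm_num) (by norm_num)
          _ = 2 := Real.rpow_one _
      have hp : 0 < (2 * Real.log x0) ^ (1 / 1600 : ℝ) := by positivity
      calc |II (B * Real.exp s) f - II (B * Real.exp s') f|
          ≤ C * ((Real.log B + s) * (100 / 105)) ^ (-(1 / 1600) : ℝ) := r3
        _ ≤ C * (2 * s ^ (-(1 / 1600) : ℝ)) := mul_le_mul_of_nonneg_left (r4.trans r5) hC.le
        _ ≤ ((2 * Real.log x0) ^ (1 / 1600 : ℝ) + 2 * C) * s ^ (-(1 / 1600) : ℝ) := by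
          nlinarith [mul_pos hp hsa]

theorem hCst (hPo : StPo) (hEqz : StEqz) : StCst := by
  obtain ⟨C1, hC1, H⟩ := cst_step hPo hEqz
  set r : ℝ := (106 / 105 : ℝ) ^ (-(1 / 1600) : ℝ) with hr
  have hr0 : 0 < r := Real.rpow_pos_of_pos (by norm_num) _
  have hr1 : r < 1 := by
    rw [hr]; exact Real.rpow_lt_one_of_one_lt_of_neg (by norm_num) (by norm_num)
  have h1r : 0 < 1 - r := by linarith
  refine ⟨C1 / (1 - r), by positivity, ?_⟩
  intro B y y' f hB hy hyy hf hI
  have hB1 : (1 : ℝ) ≤ B := by exact_mod_cast hB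
  have hB0 : (0 : ℝ) < B := by linarith
  have key : ∀ n : ℕ, ∀ s s' : ℝ, 0 < s → s ≤ s' → s' ≤ (106 / 105 : ℝ) ^ n * s →
      |II (B * Real.exp s) f - II (B * Real.exp s') f| ≤ C1 / (1 - r) * s ^ (-(1 / 1600) : ℝ) := by
    intro n
    induction n with
    | zero =>
      intro s s' hs h1 h2
      have : s = s' := le_antisymm h1 (by simpa using h2)
      subst this
      have : 0 < s ^ (-(1 / 1600) : ℝ) := Real.rpow_pos_of_pos hs _
      simp only [sub_self, abs_zero]
      positivity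
    | succ n ih =>
      intro s s' hs h1 h2
      have hsa : 0 < s ^ (-(1 / 1600) : ℝ) := Real.rpow_pos_of_pos hs _
      by_cases h3 : s' ≤ 106 / 105 * s
      · refine (H B s s' f hB hs h1 h3 hf hI).trans ?_
        apply mul_le_mul_of_nonneg_right _ hsa.le
        rw [le_div_iff₀ h1r]
        nlinarith
      · push Not at h3
        have k1 := H B s (106 / 105 * s) f hB hs (by linarith) le_rfl hf hI
        have k2 := ih (106 / 105 * s) s' (by linarith) h3.le (by rw [pow_succ] at h2; linarith)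
        have k3 : (106 / 105 * s) ^ (-(1 / 1600) : ℝ) = r * s ^ (-(1 / 1600) : ℝ) := by
          rw [Real.mul_rpow (by norm_num) hs.le]
        rw [k3] at k2
        have k4 : C1 / (1 - r) * (r * s ^ (-(1 / 1600) : ℝ)) + C1 * s ^ (-(1 / 1600) : ℝ) =
            C1 / (1 - r) * s ^ (-(1 / 1600) : ℝ) := by
          field_simp
          ring
        calc |II (B * Real.exp s) f - II (B * Real.exp s') f|
            ≤ |II (B * Real.exp s) f - II (B * Real.exp (106 / 105 * s)) f| +
              |II (B * Real.exp (106 / 105 * s)) f - II (B * Real.exp s') f| :=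
                abs_sub_le _ _ _
          _ ≤ C1 / (1 - r) * s ^ (-(1 / 1600) : ℝ) := by linarith
  have hyB : 3 ≤ y / B := by rw [le_div_iff₀ hB0]; exact hy
  have hyB' : y / B ≤ y' / B := div_le_div_of_nonneg_right hyy hB0.le
  have hs : 0 < Real.log (y / B) := Real.log_pos (by linarith)
  have hs2 : Real.log (y / B) ≤ Real.log (y' / B) := Real.log_le_log (by linarith) hyB'
  obtain ⟨n, hn⟩ := pow_unbounded_of_one_lt (Real.log (y' / B) / Real.log (y / B))
    (show (1 : ℝ) < 106 / 105 by norm_num)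
  rw [div_lt_iff₀ hs] at hn
  have := key n _ _ hs hs2 hn.le
  rw [Real.exp_log (by linarith), Real.exp_log (by linarith), mul_div_cancel₀ _ hB0.ne',
    mul_div_cancel₀ _ hB0.ne'] at this
  exact this

end Pool.Agent.Helper37.PRD
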