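import Pool.Agent.Helper76.DE.StT

/-!
# Project PRD, module Nc (helper37): nearly harmonic functions are nearly constant
-/

set_option autoImplicit false

noncomputable section

namespace Pool.Agent.Helper37.PRD

open Pool.Agent.Helper76.ND Pool.Agent.Helper76.DE Finset

theorem hNc (hBi : StBi) (hIr : StIr) (hHa : StHa) : StNc := by
  intro T ε hT hε
  obtain ⟨J, hJ⟩ := hIr T (ε / 16) hT (by positivity)
  obtain ⟨n, hn⟩ := hBi (ε / (32 * (J + 1))) (by positivity)
  have htau : tau n ≤ ε / (32 * (J + 1)) := hn n le_rfl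
  have hla : 0 < la := Real.log_pos (by norm_num)
  have hlb : 0 < lb := Real.log_pos (by norm_num)
  set η : ℝ := ε / (8 * (J + 1) * (n + 1)) with hη
  have hηpos : 0 < η := by positivity
  set Λ : ℝ := T + (2 * J + n + 2) * (la + lb) with hΛ
  have hJ0 : (0 : ℝ) ≤ J := Nat.cast_nonneg _
  have hn0 : (0 : ℝ) ≤ n := Nat.cast_nonneg _
  refine ⟨Λ, η, ?_, hηpos, ?_⟩
  · have : 0 ≤ (2 * (J : ℝ) + n + 2) * (la + lb) := by positivity
    linarith
  intro g s0 hb hL hh s hs
  set θ : ℝ := 2 * tau n + (n + 1) * η with hθ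
  have step : ∀ u, |u - s0| ≤ J * (la + lb) → |g (u + lb) - g u| ≤ θ ∧ |g (u - la) - g u| ≤ θ := by
    intro u hu
    have hu' := abs_le.mp hu
    have e1 : s0 - Λ ≤ u - (n + 1) * la := by
      rw [hΛ]
      nlinarith [mul_nonneg hJ0 hla.le, mul_nonneg hJ0 hlb.le, mul_nonneg hn0 hla.le,
        mul_nonneg hn0 hlb.le]
    have e2 : u + (n + 1) * lb ≤ s0 + Λ := by
      rw [hΛ]
      nlinarith [mul_nonneg hJ0 hla.le, mul_nonneg hJ0 hlb.le, mul_nonneg hn0 hla.le,
        mul_nonneg hn0 hlb.le]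
    have e3 : s0 - Λ ≤ u - la := by
      nlinarith [mul_nonneg hn0 hla.le]
    have e4 : u + lb ≤ s0 + Λ := by
      nlinarith [mul_nonneg hn0 hlb.le]
    have h1 := hHa g (s0 - Λ) (s0 + Λ) 4 η u n (by norm_num) hηpos.le
      (fun v h1 h2 => hb v (abs_le.mpr ⟨by linarith, by linarith⟩)) hh e1 e2
    have h2 := hh u e3 e4
    rw [abs_le] at h1 h2
    refine ⟨abs_le.mpr ⟨?_, ?_⟩, abs_le.mpr ⟨?_, ?_⟩⟩ <;> rw [hθ] <;> nlinarith [h1.1, h1.2, h2.1, h2.2]
  have hθ0 : 0 ≤ θ := by
    have := (step s0 (by simp; positivity)).1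
    exact le_trans (abs_nonneg _) this
  have w1 : ∀ j : ℕ, j ≤ J → |g (s0 + j * lb) - g s0| ≤ j * θ := by
    intro j
    induction j with
    | zero => intro _; simp
    | succ j ih =>
      intro hj
      have i1 := ih (by omega)
      have hjJ : (j : ℝ) + 1 ≤ J := by exact_mod_cast hj
      have hj0 : (0 : ℝ) ≤ j := Nat.cast_nonneg _
      have i2 := (step (s0 + j * lb) (by
        rw [abs_le]
        constructor <;> nlinarith [mul_nonneg hj0 hlb.le, mul_nonneg hJ0 hla.le,
          mul_le_mul_of_nonneg_right hjJ hlb.le])).1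
      have e : s0 + ((j + 1 : ℕ) : ℝ) * lb = s0 + j * lb + lb := by push_cast; ring
      rw [e]
      have : g (s0 + j * lb + lb) - g s0 = (g (s0 + j * lb + lb) - g (s0 + j * lb)) +
        (g (s0 + j * lb) - g s0) := by ring
      rw [this]
      refine (abs_add_le _ _).trans ?_
      push_cast
      linarith
  obtain ⟨i, hi, j, hj, hij⟩ := hJ (s - s0) hs
  have hjJ : (j : ℝ) ≤ J := by exact_mod_cast hj
  have hj0 : (0 : ℝ) ≤ j := Nat.cast_nonneg _
  have w2 : ∀ i : ℕ, i ≤ J → |g (s0 + j * lb - i * la) - g (s0 + j * lb)| ≤ i * θ := by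
    intro i
    induction i with
    | zero => intro _; simp
    | succ i ih =>
      intro hi
      have i1 := ih (by omega)
      have hiJ : (i : ℝ) + 1 ≤ J := by exact_mod_cast hi
      have hi0 : (0 : ℝ) ≤ i := Nat.cast_nonneg _
      have i2 := (step (s0 + j * lb - i * la) (by
        rw [abs_le]
        constructor <;> nlinarith [mul_nonneg hj0 hlb.le, mul_nonneg hi0 hla.le,
          mul_le_mul_of_nonneg_right hjJ hlb.le, mul_le_mul_of_nonneg_right hiJ hla.le,
          mul_nonneg hJ0 hla.le, mul_nonneg hJ0 hlb.le])).2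
      have e : s0 + (j : ℝ) * lb - ((i + 1 : ℕ) : ℝ) * la = s0 + j * lb - i * la - la := by
        push_cast; ring
      rw [e]
      have : g (s0 + j * lb - i * la - la) - g (s0 + j * lb) =
        (g (s0 + j * lb - i * la - la) - g (s0 + j * lb - i * la)) +
        (g (s0 + j * lb - i * la) - g (s0 + j * lb)) := by ring
      rw [this]
      refine (abs_add_le _ _).trans ?_
      push_cast
      linarith
  have hiJ : (i : ℝ) ≤ J := by exact_mod_cast hi
  have hi0 : (0 : ℝ) ≤ i := Nat.cast_nonneg _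
  have a1 := w1 j hj
  have a2 := w2 i hi
  have hs' := abs_le.mp hs
  have hTΛ : T ≤ Λ := by
    have : 0 ≤ (2 * (J : ℝ) + n + 2) * (la + lb) := by positivity
    linarith
  have a3 := hL s (s0 + j * lb - i * la) (hs.trans hTΛ) (by
    rw [abs_le, hΛ]
    constructor <;> nlinarith [mul_nonneg hj0 hlb.le, mul_nonneg hi0 hla.le,
          mul_le_mul_of_nonneg_right hjJ hlb.le, mul_le_mul_of_nonneg_right hiJ hla.le,
          mul_nonneg hJ0 hla.le, mul_nonneg hJ0 hlb.le, mul_nonneg hn0 hla.le,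
        mul_nonneg hn0 hlb.le])
  have a4 : |s - (s0 + j * lb - i * la)| ≤ ε / 16 := by
    rw [abs_sub_comm]
    have : s0 + j * lb - i * la - s = j * lb - i * la - (s - s0) := by ring
    rw [this]; exact hij
  have key : 2 * J * θ ≤ ε / 2 := by
    have k1 : (J : ℝ) * tau n ≤ ε / 32 := by
      calc (J : ℝ) * tau n ≤ J * (ε / (32 * (J + 1))) := mul_le_mul_of_nonneg_left htau hJ0
        _ ≤ (J + 1) * (ε / (32 * (J + 1))) := by
            apply mul_le_mul_of_nonneg_right (by linarith) (by positivity)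
        _ = ε / 32 := by field_simp
    have k2 : (J : ℝ) * ((n + 1) * η) ≤ ε / 8 := by
      calc (J : ℝ) * ((n + 1) * η) ≤ (J + 1) * ((n + 1) * η) := by
            apply mul_le_mul_of_nonneg_right (by linarith) (by positivity)
        _ = ε / 8 := by rw [hη]; field_simp
    rw [hθ]
    nlinarith
  have t1 : (j : ℝ) * θ ≤ J * θ := mul_le_mul_of_nonneg_right hjJ hθ0
  have t2 : (i : ℝ) * θ ≤ J * θ := mul_le_mul_of_nonneg_right hiJ hθ0
  rw [abs_le] at a1 a2 a3 ⊢
  constructor <;> linarith [a1.1, a1.2, a2.1, a2.2, a3.1, a3.2]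

end Pool.Agent.Helper37.PRD
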